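import Pool.Agent.Run7.h902.CyVan

/-!
# MP_d72c81_ag: the vanishing in negative degrees, dimension by dimension and weight by weight

Let `G b m X` be the rational higher Chow groups `CH_b(X, m)` of separated schemes `X` of finite type
over `ℂ` (cycles of dimension `b + m` on `X × Δ^m`) with their known properties (`Chow`, `ChowC`): the
localization sequence, vanishing above the dimension, `CH^0(X, m) = 0` for `m > 0`, and resolution
of singularities for smooth affine varieties. For smooth `X` of dimension `e` one has
`H^k(X, ℚ(j)) = CH^j(X, 2 j - k) = G (e - j) (2 j - k) X`.

`FixedModuli ℂ A`: `Spec A` is a moduli space of configurations of points in the projective plane,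
finitely many of them fixed with arbitrary coordinates and finitely many of them moving in given
Schubert cells `(1:x:y)`, `(0:1:y)`, `(0:0:1)`, such that every triple of points is prescribed to be
collinear or not collinear.

Theorem: for all `w` and `d` the vanishing `H^k(X, ℚ(j)) = 0`, `k < 0`, `j ≤ w`, for all smooth projective
complex varieties of dimension at most `d` is equivalent to the vanishing for the smooth integral
moduli spaces of configurations of dimension at most `d`; it is also equivalent to the vanishing
`CH_(e - j)(X, m) = 0`, `j ≤ w`, `m > 2 j`, for all (singular, reducible) schemes of finite type with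
`dim X ≤ d`, `dim X ≤ e`.

Proof. A smooth affine variety `U` of dimension `e` is open in a smooth projective `Y` with complement
`Z` of smaller dimension, and `CH_b(Y, m) → CH_b(U, m) → CH_b(Z, m - 1)` is exact; for `b = e - j` and
`m > 2 j` the last group vanishes by induction because `e - j = (e - 1) - (j - 1)` and
`m - 1 > 2 (j - 1)`. Every integral scheme over `ℂ` has a dense open subscheme which is ISOMORPHIC to a
smooth moduli space of configurations (an exact form of the universality theorem of Mnev, proved in
`CvRing`, `CvGad`, `CvMain`), and Noetherian induction needs only that `CH Z → CH X → CH U` is exact in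
the middle.
-/

set_option autoImplicit false

open CategoryTheory AlgebraicGeometry Pool.Agent.Y116.UV Pool.Agent.Run7.h902

namespace Pool.Agent.Results.MP_d72c81_ag.ConfigurationsByDimension

/-- **Theorem.** For all `w` and `d` the following are equivalent:
(1) `H^k(X, ℚ(j)) = 0` for `k < 0`, `j ≤ w` and all smooth projective complex varieties `X` of dimension
at most `d`;
(2) `CH_(e - j)(X, m) = 0` for `j ≤ w`, `m > 2 j`, all schemes `X` of finite type over `ℂ` of dimension at
most `d` and all `e ≥ dim X`;
(3) `H^k(X, ℚ(j)) = 0` for `k < 0`, `j ≤ w` and the smooth integral moduli spaces `X` over `ℂ` of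
configurations of points in the plane of dimension at most `d`. -/
theorem result (F : Cw.ChowC) (w d : ℕ) :
    List.TFAE [
      ∀ Y : Sch ℂ, Cw.SmoothProjective Y → topologicalKrullDim Y.left ≤ d → F.C.Neg w Y,
      ∀ X : Sch ℂ, FT True X → topologicalKrullDim X.left ≤ d → F.C.NegAll w X,
      Cw.ForSmoothDim ℂ d (F.C.Neg w)] :=
  Cw.neg_dim F w d

end Pool.Agent.Results.MP_d72c81_ag.ConfigurationsByDimension
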