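import Pool.Agent.Run7.h902.CyQ

/-!
# MP_d72c81_ag: the vanishing in negative degrees is a question on configurations over `ℚ`

Let `C.G b m X` and `E.G b m X` be the rational higher Chow groups `CH_b(X, m)` of separated schemes of
finite type over `ℂ` and over `ℚ`, with their known properties (`Chow`, `ChowC`, `ChowQC`): localization,
vanishing above the dimension, `CH^0(X, m) = 0` for `m > 0`, resolution of singularities for smooth
affine complex varieties, continuity (`model`), and injectivity of the base change from `ℚ` to `ℂ`.

`FrameModuli ℚ A`: `Spec A` is a moduli space over `ℚ` of configurations of points in the projective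
plane: the points `(1:0:0)`, `(0:1:0)`, `(0:0:1)`, `(1:1:1)` and finitely many points moving in given
Schubert cells `(1:x:y)`, `(0:1:y)`, `(0:0:1)`, such that every triple of points is prescribed to be
collinear or not collinear. These are the realization spaces, modulo `PGL_3`, of the matroids of
rank `3` with a frame.

Theorem: the vanishing `H^k(X, ℚ(j)) = 0`, `k < 0`, `j ≤ w`, for all smooth projective complex varieties
is equivalent to the vanishing for these countably many explicit schemes over `ℚ`, if they are
smooth and integral.
-/

set_option autoImplicit false

open CategoryTheory AlgebraicGeometry Pool.Agent.Y116.UV Pool.Agent.Run7.h902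

namespace Pool.Agent.Results.MP_d72c81_ag.ConfigurationsOverTheRationals

/-- **Theorem.** For every `w` the vanishing of `H^k(X, ℚ(j)) = CH^j(X, 2 j - k)` for `k < 0`, `j ≤ w` and
all smooth projective complex varieties `X` is equivalent to the vanishing for the smooth integral
moduli spaces `X` over `ℚ` of configurations of points in the plane containing the frame. -/
theorem result (F : Cw.ChowQC) (w : ℕ) :
    (∀ X : Sch ℂ, Cw.SmoothProjective X → F.C.Neg w X) ↔ Cw.ForSmooth ℚ (F.E.Neg w) :=
  Cw.neg_rat F w

end Pool.Agent.Results.MP_d72c81_ag.ConfigurationsOverTheRationals
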