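import Pool.Agent.Run7.h406.PR.Q

/-!
# MP_d72c81_ag: the vanishing in negative degrees and the fields `ℚ(t_1, …, t_d)`

Let `H^i(F, ℚ(n))` be the rational motivic cohomology of fields of characteristic zero, and `CH` the
rational higher Chow groups of schemes over `ℂ` and `ℚ`, with their known properties
(`RationalMotives`; among them localization, resolution of singularities, the exact sequence
`0 → H^(i+1)(K, n+1) → H^(i+1)(K(t), n+1) → ⨁_P H^i(K_P, n) → 0` and the theorem of Borel for `K_*(ℚ)`).
Let `V_h` be the complement in the affine space `𝔸^N` over `ℚ` of all hypersurfaces which are given by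
polynomials of degree at most `h` with integer coefficients of absolute value at most `h`.

Theorem. (1) For every `w` the following are equivalent:
(a) `H^k(Y, ℚ(j)) = 0` for all smooth projective complex varieties `Y`, all `k < 0` and `j ≤ w`;
(b) `H^i(F, ℚ(n)) = 0` for all finitely generated fields `F` of characteristic zero, `i < 0`, `n ≤ w`;
and, for all `i ≤ 0`, `1 ≤ n ≤ w + 1` and all `d`:
(c) `H^i(ℚ(t_1, …, t_d), ℚ(n)) = 0`;
(d) `H^i(ℚ(t_1, …, t_d), ℚ(n))` is finite-dimensional;
(e) the automorphism `t_(d+1) ↦ t_(d+1) + 1` acts trivially on `H^i(ℚ(t_1, …, t_(d+1)), ℚ(n))`;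
(f) each element of `H^i(ℚ(t_1, …, t_(d+1)), ℚ(n))` has infinitely many translates,
`t_(d+1) ↦ t_(d+1) + a`, `a ∈ ℚ(t_1, …, t_d)`, in a finite-dimensional space modulo
`H^i(ℚ(t_1, …, t_d), ℚ(n))`;
(g) `H^i(𝔸^(d+1) - V(f), ℚ(n)) = 0` for all polynomials `f ≠ 0` with rational coefficients;
(h) the rank of `H^i(V_h, ℚ(n))`, `V_h ⊆ 𝔸^(d+1)`, grows slowly with `h`: for all `C` and `s` there is an
`h = heightBound d s u`, `u ≥ 1`, with `C · rank H^i(V_h, ℚ(n)) < (2 u + 1) ^ ((u + 1) ^ d)`; for
`d ≥ 1` the right hand side is larger than `exp (h ^ ε)`, `ε = ε(d, s) > 0`.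
(2) Q1 is equivalent to each of the statements (c) - (h) for all `n ≥ 1` in the single degree `i = 0`.
So if Q1 is false, then for some `n ≥ 1` and `d ≥ 1` the space `H^0(ℚ(t_1, …, t_d), ℚ(n))` is
infinite-dimensional, and for some `n` and `d` the ranks of `H^0(V_h, ℚ(n))` are large.

Proof. As in `RationalFunctionFields` a finitely generated field `F` of transcendence degree `d` is a
residue field of a point `P` of the affine line over `K_d = ℚ(t_1, …, t_d)`, so a nonzero class of `F` is the
only residue of a class `x` over `K_(d+1)`. One may choose `P(t + 1) ≠ P(t)` (`exists_moved`). For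
polynomials `a` in `t_1, …, t_d` with bounded integer coefficients the classes `x(t + a)` come from `V_h`
with a bound for `h`, and the dimension of the space which they span is at least a constant
times the number of these polynomials. For the passage from `ℂ` to `ℚ` see `Run7/h902`.
-/

set_option autoImplicit false

open Pool.Agent.Run7.h406.PR Pool.Agent.Run7.h406.PR.RationalMotives

namespace Pool.Agent.Results.MP_d72c81_ag.OverTheRationals

/-- **Theorem.** The vanishing in negative degrees for smooth projective complex varieties in terms of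
the motivic cohomology of the fields `ℚ(t_1, …, t_d)` in nonpositive degrees, weight by weight (1);
in all weights, only in degree zero (2). -/
theorem result (E : RationalMotives) :
    (∀ w : ℕ, List.TFAE [
      E.Complex w,
      E.Fields w,
      E.Zero (nonpos w),
      E.FinDim (nonpos w),
      E.Fixed (nonpos w),
      E.Few (nonpos w),
      E.Complements (nonpos w),
      E.Slow (nonpos w)]) ∧
    List.TFAE [
      ∀ w : ℕ, E.Complex w,
      E.Zero degreeZero,
      E.FinDim degreeZero,
      E.Fixed degreeZero,
      E.Few degreeZero,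
      E.Complements degreeZero,
      E.Slow degreeZero] :=
  ⟨fun w => E.weight_tfae w, E.all_tfae⟩

end Pool.Agent.Results.MP_d72c81_ag.OverTheRationals
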