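import Pool.Agent.Run7.h384.RF.Final

/-!
# MP_d72c81_ag: the vanishing in negative degrees and rational function fields

Let `CH_b(X, m)` be the rational higher Chow groups of complex schemes and `H^i(F, ℚ(n))` the rational
motivic cohomology of the extension fields `F` of `ℂ`, with their known properties (`ChowFields`):
for fields the split exact sequences
`0 → H^(i+1)(K, n+1) → H^(i+1)(K(t), n+1) → ⨁_P H^i(K_P, n) → 0` over the closed points `P` of the
affine line over `K` and their compatibility with the translations `t ↦ t + a`; for schemes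
localization, resolution of singularities for smooth affine varieties; and the relation
`H^(2n-m)(F, n) = colim CH^n(U, m)` for the function field `F`.

`Ext.tower ℂ m` is the field `K_m = ℂ(t_1, …, t_m)`. For a field `K`, a degree `i` and a weight `n`:

* `Rational i n m`: `H^i(ℂ, ℚ(n)) → H^i(K_m, ℚ(n))` is bijective;
* `Fixes i n K 1`: the automorphism `t ↦ t + 1` acts trivially on `H^i(K(t), ℚ(n))`;
* `FewTranslates i n K`: for each `x` in `H^i(K(t), ℚ(n))` infinitely many translates `x(t + a)`,
  `a ∈ K`, lie in the sum of `H^i(K, ℚ(n))` and a finite-dimensional space;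
* `Small i n K_m 𝔠`: `H^i(K_m, ℚ(n)) / H^i(ℂ, ℚ(n))` is generated by less than continuum many
  elements (for example if it is countable).

Theorem. (1) For all `w` and `d` each of these statements, in the degrees `i ≤ 0`, for the weights
`1 ≤ n ≤ w + 1` and the field `K_(d+1)`, is equivalent to the vanishing `H^k(Y, ℚ(j)) = 0` for all smooth
projective complex varieties `Y` of dimension at most `d`, all `j ≤ w` and all `k < 0`.
(2) The question Q1 is equivalent to each of these statements in the single degree `i = 0`.

Proof. A finitely generated field `F` of transcendence degree `d` over a perfect field is a residue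
field `K_d[t]/(P)` (separating transcendence basis, primitive element); so `H^i(F, n)` is a quotient
of `H^(i+1)(K_(d+1), n + 1)`. A translation by `a` moves the residue at `P(t)` to the residue at
`P(t + a)`, and for fixed `P` and `Q` there are only finitely many `a` with `P(t + a) = Q`. So one
nonzero residue produces, for an infinite field `K`, an element whose translates are not contained in
a finitely generated module modulo constants, and at least as many generators as `K` has elements.
For the passage from schemes to fields and back see `Chow.lean`; it uses Noetherian induction on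
schemes from `Pool/Agent/Run7/h902`.
-/

set_option autoImplicit false

open CategoryTheory AlgebraicGeometry Cardinal
open Pool.Agent.Y116.UV Pool.Agent.Run7.h902 Pool.Agent.Run7.h384.RF

namespace Pool.Agent.Results.MP_d72c81_ag.RationalFunctionFields

/-- **Theorem.** (1) For all `w` and `d` the following are equivalent: (a) `H^k(Y, ℚ(j)) = 0` for all smooth
projective complex varieties `Y` of dimension at most `d`, `j ≤ w`, `k < 0`; (b) `H^i(F, ℚ(n)) = 0` for all
finitely generated fields `F` of transcendence degree at most `d` over `ℂ`, `n ≤ w`, `i < 0`; and, for all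
`1 ≤ n ≤ w + 1` and `i ≤ 0`: (c) `H^i(ℂ, ℚ(n)) = H^i(ℂ(t_1, …, t_(d+1)), ℚ(n))`; (d) the automorphism
`t_(d+1) ↦ t_(d+1) + 1` acts trivially on `H^i(ℂ(t_1, …, t_(d+1)), ℚ(n))`; (e) for each `x` in this group
infinitely many translates of `x` lie in a finite-dimensional space modulo
`H^i(ℂ(t_1, …, t_d), ℚ(n))`; (f) `H^i(ℂ(t_1, …, t_(d+1)), ℚ(n))` is generated by `H^i(ℂ, ℚ(n))` and less than
continuum many elements. (2) The vanishing of `H^k(Y, ℚ(j))`, `k < 0`, for all smooth projective complex
varieties and all `j` is equivalent to each of (c) - (f) in the degree `i = 0` for all `d` and `n`. -/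
theorem result (E : ChowFields) :
    (∀ w d : ℕ, List.TFAE [
      ∀ Y : Sch ℂ, Cw.SmoothProjective Y → topologicalKrullDim Y.left ≤ d → E.chow.C.Neg w Y,
      ∀ n ≤ w, ∀ i < 0, E.fields.Vanish i n d,
      ∀ n : ℕ, 1 ≤ n → n ≤ w + 1 → ∀ i ≤ 0, E.fields.Rational i n (d + 1),
      ∀ n : ℕ, 1 ≤ n → n ≤ w + 1 → ∀ i ≤ 0, E.fields.Fixes i n (Ext.tower ℂ d) 1,
      ∀ n : ℕ, 1 ≤ n → n ≤ w + 1 → ∀ i ≤ 0, E.fields.FewTranslates i n (Ext.tower ℂ d),
      ∀ n : ℕ, 1 ≤ n → n ≤ w + 1 → ∀ i ≤ 0, E.fields.Small i n (Ext.tower ℂ (d + 1)) 𝔠]) ∧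
    List.TFAE [
      ∀ (w : ℕ) (Y : Sch ℂ), Cw.SmoothProjective Y → E.chow.C.Neg w Y,
      ∀ n m : ℕ, 1 ≤ n → E.fields.Rational 0 n m,
      ∀ n m : ℕ, 1 ≤ n → E.fields.Fixes 0 n (Ext.tower ℂ m) 1,
      ∀ n m : ℕ, 1 ≤ n → E.fields.FewTranslates 0 n (Ext.tower ℂ m),
      ∀ n m : ℕ, 1 ≤ n → E.fields.Small 0 n (Ext.tower ℂ m) 𝔠] :=
  ⟨neg_tfae E, all_tfae E⟩

end Pool.Agent.Results.MP_d72c81_ag.RationalFunctionFields
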